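import Pool.Agent.R795.Min.Main

/-!
# Functions determined by content and singletons are weakly reconstructible
-/

open Function Finset Pool.Agent.R795.Min

namespace Pool.Agent.Results.MP_75c0e8_co.WeakReconstruction

variable {A B : Type}

/-- Similar functions: they differ by a permutation of the arguments. -/
def Similar {n : ℕ} (f g : (Fin n → A) → B) : Prop :=
  ∃ τ : Equiv.Perm (Fin n), ∀ a : Fin n → A, f a = g (fun k => a (τ k))

/-- Similarity as an equivalence relation. -/
def simSetoid (A B : Type) (n : ℕ) : Setoid ((Fin n → A) → B) where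
  r := Similar
  iseqv :=
    { refl := fun f => ⟨1, fun a => rfl⟩
      symm := by
        rintro f g ⟨τ, h⟩
        refine ⟨τ.symm, fun a => ?_⟩
        rw [h]
        congr 1
        funext k
        simp
      trans := by
        rintro f g h ⟨τ, h1⟩ ⟨τ', h2⟩
        refine ⟨τ'.trans τ, fun a => ?_⟩
        rw [h1, h2]
        rfl }

/-- The identification minor `f_I` of a function of arity `n + 1` for `I = {i, j}` with `i < j`:
`f_I(a_1, …, a_n) = f(a_1, …, a_{j-1}, a_i, a_j, …, a_n)`. -/
def minor {n : ℕ} (f : (Fin (n + 1) → A) → B) (i : Fin n) (j : Fin (n + 1)) : (Fin n → A) → B :=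
  fun a => f (j.insertNth (a i) a)

/-- The two-element subsets `{i, j}`, `i < j`, of the set of the `n + 1` arguments. -/
def pairs (n : ℕ) : Finset (Fin n × Fin (n + 1)) := univ.filter fun p => p.1.castSucc < p.2

/-- The deck: the multiset of the similarity classes of the identification minors. -/
def deck {n : ℕ} (f : (Fin (n + 1) → A) → B) : Multiset (Quotient (simSetoid A B n)) :=
  (pairs n).val.map fun p => Quotient.mk (simSetoid A B n) (minor f p.1 p.2)

/-- A class `C` of functions of arity `n + 1` is weakly reconstructible if members of `C` with equal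
decks are similar. -/
def WeaklyReconstructible {n : ℕ} (C : Set ((Fin (n + 1) → A) → B)) : Prop :=
  ∀ f ∈ C, ∀ g ∈ C, deck f = deck g → Similar f g

theorem finite_case [DecidableEq A] [Fintype A] {n : ℕ}
    (hn : Fintype.card A * Fintype.card A + 3 ≤ n) :
    WeaklyReconstructible {f : (Fin (n + 1) → A) → B | DetCS f} := by
  intro f hf g hg hdeck
  have hn0 : 0 < n := by lia
  have hp : ((⟨0, hn0⟩ : Fin n), Fin.last n) ∈ pairs n := by
    rw [pairs, mem_filter]
    exact ⟨mem_univ _, Fin.castSucc_lt_last _⟩
  have hmem : Quotient.mk (simSetoid A B n) (minor f ⟨0, hn0⟩ (Fin.last n)) ∈ deck f :=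
    Multiset.mem_map.mpr ⟨_, hp, rfl⟩
  rw [hdeck] at hmem
  obtain ⟨⟨i, j⟩, _, hij⟩ := Multiset.mem_map.mp hmem
  have hsim : Similar (minor f ⟨0, hn0⟩ (Fin.last n)) (minor g i j) :=
    (simSetoid A B n).symm (Quotient.exact hij)
  obtain ⟨σ, hσ⟩ := hsim
  rcases compare hf hg ⟨0, hn0⟩ (Fin.last n) i j σ hσ hn with h | h
  · exact ⟨1, fun a => by rw [h]; rfl⟩
  · exact ⟨Fin.revPerm, h⟩

theorem infinite_case [DecidableEq A] [Infinite A] [Nontrivial B] {n : ℕ} :
    ¬ WeaklyReconstructible {f : (Fin (n + 1) → A) → B | DetCS f} := by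
  classical
  intro hrec
  obtain ⟨b0, b1, hb⟩ := exists_pair_ne B
  set f : (Fin (n + 1) → A) → B := fun _ => b0 with hf
  set g : (Fin (n + 1) → A) → B := fun a => if Injective a then b1 else b0 with hg
  have hfC : DetCS f := fun _ _ _ _ => rfl
  have hinj : ∀ a : Fin (n + 1) → A, Injective a ↔ (content a).Nodup := by
    intro a
    rw [content, Multiset.nodup_map_iff_inj_on (univ : Finset (Fin (n + 1))).nodup]
    simp [Injective]
  have hgC : DetCS g := by
    intro a b hab _
    simp only [hg, hinj, hab]
  have hdeck : deck f = deck g := by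
    unfold deck
    apply Multiset.map_congr rfl
    rintro ⟨i, j⟩ _
    have : minor f i j = minor g i j := by
      funext a
      simp only [minor, hf, hg]
      rw [if_neg]
      intro hi
      have : j = j.succAbove i := hi (by simp)
      exact Fin.succAbove_ne j i this.symm
    rw [this]
  obtain ⟨τ, hτ⟩ := hrec f hfC g hgC hdeck
  set a : Fin (n + 1) → A := fun k => Infinite.natEmbedding A k with ha
  have hai : Injective a := fun x y hxy =>
    Fin.ext ((Infinite.natEmbedding A).injective hxy)
  have h1 := hτ a
  simp only [hf, hg] at h1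
  rw [if_pos (show Injective fun k => a (τ k) from hai.comp τ.injective)] at h1
  exact hb h1

/-- If `A` is finite, the class of functions `A^m → B` determined by content and singletons is
weakly reconstructible for all sufficiently large arities `m = n + 1`. (If `A` is infinite and `B`
has at least two elements, this fails in every arity `m ≥ 2`.) -/
theorem result (A B : Type) [DecidableEq A] :
    (Finite A → ∃ N : ℕ, ∀ n : ℕ, N ≤ n →
      WeaklyReconstructible {f : (Fin (n + 1) → A) → B | DetCS f}) ∧
    (Infinite A → Nontrivial B → ∀ n : ℕ, 1 ≤ n →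
      ¬ WeaklyReconstructible {f : (Fin (n + 1) → A) → B | DetCS f}) := by
  constructor
  · intro hA
    have := Fintype.ofFinite A
    exact ⟨Fintype.card A * Fintype.card A + 3, fun n hn => finite_case hn⟩
  · intro _ _ n _
    exact infinite_case

end Pool.Agent.Results.MP_75c0e8_co.WeakReconstruction
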